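import Mathlib
import Pool.Agent.H731R3.NB

/-!
# A tree of rational numbers with prime denominators
-/

set_option autoImplicit false

open Finset

namespace Pool.Agent.Q304.RG

/-- The node (reversed finite sequence) with a given code. -/
def nd (n : ℕ) : List ℕ := Denumerable.ofNat (List ℕ) n

lemma encode_nd (n : ℕ) : Encodable.encode (nd n) = n := Denumerable.encode_ofNat n

lemma nd_encode (s : List ℕ) : nd (Encodable.encode s) = s := Denumerable.ofNat_encode s

/-- Code of the parent. -/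
def pa (n : ℕ) : ℕ := Encodable.encode (nd n).tail

lemma encode_lt (i : ℕ) (s : List ℕ) : Encodable.encode s < Encodable.encode (i :: s) := by
  rw [Encodable.encode_list_cons]
  exact Nat.lt_succ_of_le (Nat.right_le_pair _ _)

lemma nd_ne {n : ℕ} (hn : n ≠ 0) : nd n ≠ [] := by
  intro h
  apply hn
  rw [← encode_nd n, h]
  rfl

lemma nd_eq {n : ℕ} (hn : n ≠ 0) : ∃ i, nd n = i :: nd (pa n) := by
  obtain ⟨i, s, hs⟩ := List.exists_cons_of_ne_nil (nd_ne hn)
  refine ⟨i, ?_⟩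
  rw [pa, hs, List.tail_cons, nd_encode]

lemma pa_lt {n : ℕ} (hn : n ≠ 0) : pa n < n := by
  obtain ⟨i, hi⟩ := nd_eq hn
  have := encode_lt i (nd (pa n))
  rwa [← hi, encode_nd, encode_nd] at this

/-- The next modulus: a large prime. -/
noncomputable def nx (n M : ℕ) : ℕ :=
  if n = 0 then 1 else (Nat.exists_infinite_primes (16 * (n + 1) * M ^ 2 + 2)).choose

/-- Products of the moduli. -/
noncomputable def M : ℕ → ℕ
  | 0 => 1
  | n + 1 => M n * nx n (M n)

/-- The moduli. -/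
noncomputable def m (n : ℕ) : ℕ := nx n (M n)

lemma m_zero : m 0 = 1 := by simp [m, nx]

lemma M_zero : M 0 = 1 := rfl

lemma M_succ (n : ℕ) : M (n + 1) = M n * m n := rfl

lemma m_spec {n : ℕ} (hn : n ≠ 0) : 16 * (n + 1) * M n ^ 2 + 2 ≤ m n ∧ (m n).Prime := by
  have := (Nat.exists_infinite_primes (16 * (n + 1) * M n ^ 2 + 2)).choose_spec
  rw [m, nx, if_neg hn]
  exact this

lemma m_prime {n : ℕ} (hn : n ≠ 0) : (m n).Prime := (m_spec hn).2

lemma m_pos (n : ℕ) : 0 < m n := by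
  rcases eq_or_ne n 0 with rfl | hn
  · rw [m_zero]; exact one_pos
  · exact (m_prime hn).pos

lemma M_eq (n : ℕ) : M n = ∏ l ∈ range n, m l := by
  induction n with
  | zero => rfl
  | succ n ih => rw [M_succ, prod_range_succ, ih]

lemma M_pos (n : ℕ) : 0 < M n := by
  rw [M_eq]
  exact prod_pos fun l _ => m_pos l

lemma m_dvd_M {l n : ℕ} (h : l < n) : m l ∣ M n := by
  rw [M_eq]
  exact dvd_prod_of_mem _ (mem_range.2 h)

lemma m_le_M {l n : ℕ} (h : l < n) : m l ≤ M n := Nat.le_of_dvd (M_pos n) (m_dvd_M h)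

lemma M_dvd_M {a b : ℕ} (h : a ≤ b) : M a ∣ M b := by
  rw [M_eq, M_eq]
  exact prod_dvd_prod_of_subset _ _ _ (range_subset_range.2 h)

lemma M_le_M {a b : ℕ} (h : a ≤ b) : M a ≤ M b := Nat.le_of_dvd (M_pos b) (M_dvd_M h)

lemma m_big {n : ℕ} (hn : n ≠ 0) : 16 * (n + 1) * M n ^ 2 + 2 ≤ m n := (m_spec hn).1

lemma M_lt_m {n : ℕ} (hn : n ≠ 0) : 16 * (n + 1) * M n < m n := by
  have h1 := m_big hn
  have h2 := M_pos n
  have h3 : 16 * (n + 1) * M n ≤ 16 * (n + 1) * M n ^ 2 := by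
    apply Nat.mul_le_mul_left
    nlinarith
  omega

lemma m_lt {l n : ℕ} (h : l < n) : 16 * m l < m n := by
  have hn : n ≠ 0 := by omega
  have h1 := M_lt_m hn
  have h2 := m_le_M h
  nlinarith [M_pos n]

lemma le_m (n : ℕ) : n ≤ m n := by
  rcases eq_or_ne n 0 with rfl | hn
  · exact Nat.zero_le _
  · have h1 := M_lt_m hn
    have h2 := M_pos n
    nlinarith

lemma m_ne {l n : ℕ} (h : l ≠ n) : m l ≠ m n := by
  rcases lt_or_gt_of_ne h with h | h
  · have := m_lt h; have := m_pos l; omega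
  · have := m_lt h; have := m_pos n; omega

/-- Product of the moduli with code below `N`, except `t`. -/
noncomputable def Q (N t : ℕ) : ℕ := ∏ l ∈ (range N).erase t, m l

lemma Q_pos (N t : ℕ) : 0 < Q N t := prod_pos fun l _ => m_pos l

lemma m_mul_Q {N t : ℕ} (h : t < N) : m t * Q N t = M N := by
  rw [M_eq, Q]
  exact mul_prod_erase _ _ (mem_range.2 h)

lemma dvd_Q {N t l : ℕ} (hl : l < N) (h : l ≠ t) : m l ∣ Q N t :=
  dvd_prod_of_mem _ (mem_erase.2 ⟨h, mem_range.2 hl⟩)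

lemma not_dvd_m {l t : ℕ} (ht : t ≠ 0) (h : l ≠ t) : ¬ m t ∣ m l := by
  intro hd
  rcases eq_or_ne l 0 with rfl | hl
  · rw [m_zero] at hd
    exact (m_prime ht).one_lt.ne' (Nat.dvd_one.1 hd)
  · exact m_ne h ((Nat.prime_dvd_prime_iff_eq (m_prime ht) (m_prime hl)).1 hd).symm

lemma not_dvd_Q {N t : ℕ} (ht : t ≠ 0) : ¬ m t ∣ Q N t := by
  intro hd
  obtain ⟨l, hl, hdl⟩ := (Nat.Prime.prime (m_prime ht)).exists_mem_finset_dvd hd
  exact not_dvd_m ht (ne_of_mem_erase hl) hdl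

lemma Q_succ_self (N : ℕ) : Q (N + 1) N = M N := by
  rw [Q, M_eq, range_add_one, erase_insert (by simp)]

lemma Q_succ {N t : ℕ} (h : t < N) : Q (N + 1) t = m N * Q N t := by
  rw [Q, Q, range_add_one, erase_insert_of_ne (by omega), prod_insert]
  simp

/-- Numerators. -/
noncomputable def h (n : ℕ) : ℕ :=
  if hn : n = 0 then 0 else h (pa n) * m n / m (pa n) + 1
termination_by n
decreasing_by exact pa_lt hn

lemma h_zero : h 0 = 0 := by rw [h]; simp

lemma h_eq {n : ℕ} (hn : n ≠ 0) : h n = h (pa n) * m n / m (pa n) + 1 := by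
  rw [h, dif_neg hn]

lemma h_pos {n : ℕ} (hn : n ≠ 0) : 0 < h n := by rw [h_eq hn]; exact Nat.succ_pos _

lemma h_lt (n : ℕ) : h n < m n := by
  induction n using Nat.strong_induction_on with
  | _ n ih =>
    rcases eq_or_ne n 0 with rfl | hn
    · rw [h_zero]; exact m_pos 0
    · have h1 := ih _ (pa_lt hn)
      have h2 := m_lt (pa_lt hn)
      have h3 := m_pos (pa n)
      rw [h_eq hn]
      have h4 : h (pa n) * m n / m (pa n) < m n - 1 := by
        rw [Nat.div_lt_iff_lt_mul h3]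
        obtain ⟨a, ha⟩ : ∃ a, m (pa n) = h (pa n) + 1 + a := ⟨m (pa n) - h (pa n) - 1, by omega⟩
        obtain ⟨b, hb⟩ : ∃ b, m n = b + 1 := ⟨m n - 1, by omega⟩
        rw [hb, Nat.add_sub_cancel]
        rw [ha] at h2 ⊢
        nlinarith
      omega

/-- Numerators of the differences. -/
noncomputable def e (n : ℕ) : ℤ := h n * m (pa n) - h (pa n) * m n

lemma e_bd {n : ℕ} (hn : n ≠ 0) : 0 < e n ∧ e n ≤ m (pa n) := by
  have h3 := m_pos (pa n)
  have h1 := Nat.div_add_mod (h (pa n) * m n) (m (pa n))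
  have h2 := Nat.mod_lt (h (pa n) * m n) h3
  set q := h (pa n) * m n / m (pa n) with hq
  set r := h (pa n) * m n % m (pa n) with hr
  have h4 : e n = m (pa n) - r := by
    rw [e, h_eq hn, ← hq]
    push_cast
    have : (h (pa n) : ℤ) * m n = m (pa n) * q + r := by exact_mod_cast h1.symm
    rw [this]; ring
  rw [h4]
  constructor
  · have : (r : ℤ) < m (pa n) := by exact_mod_cast h2
    linarith
  · have : (0 : ℤ) ≤ r := by positivity
    linarith

lemma not_dvd_h {n : ℕ} (hn : n ≠ 0) : ¬ m n ∣ h n := by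
  intro hd
  have := Nat.le_of_dvd (h_pos hn) hd
  have := h_lt n
  omega

end Pool.Agent.Q304.RG
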