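import Mathlib
import Pool.Agent.Q304.RG.Seq

/-!
# Tests attached to a tree, and the forward direction
-/

set_option autoImplicit false

open Finset

namespace Pool.Agent.Q304.RG

open Pool.Agent.H731R3.Tame

/-- All suffixes of a node belong to the tree. -/
def ok (τ : List ℕ → Bool) : List ℕ → Bool
  | [] => τ []
  | i :: s => τ (i :: s) && ok τ s

lemma ok_br {τ : List ℕ → Bool} {z : ℕ → ℕ} {n : ℕ} (h : ok τ (br z n) = true) :
    ∀ n' ≤ n, τ (br z n') = true := by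
  induction n with
  | zero => intro n' hn; obtain rfl : n' = 0 := by omega
            exact h
  | succ n ih =>
    have h' : (τ (br z (n + 1)) && ok τ (br z n)) = true := h
    rw [Bool.and_eq_true] at h'
    intro n' hn
    rcases Nat.lt_or_ge n' (n + 1) with h1 | h1
    · exact ih h'.2 n' (by omega)
    · obtain rfl : n' = n + 1 := by omega
      exact h'.1

lemma ok_of_br {τ : List ℕ → Bool} {z : ℕ → ℕ} (h : ∀ n, τ (br z n) = true) (n : ℕ) :
    ok τ (br z n) = true := by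
  induction n with
  | zero => exact h 0
  | succ n ih =>
    have : (τ (br z (n + 1)) && ok τ (br z n)) = true := by rw [h, ih]; rfl
    exact this

/-- The multiplier of a test. -/
noncomputable def w (N t y : ℕ) : ℕ :=
  ((y : ZMod (m t)) * ((Q N t * h t : ℕ) : ZMod (m t))⁻¹).val

instance (t : ℕ) : NeZero (m t) := ⟨(m_pos t).ne'⟩

lemma w_lt (N t y : ℕ) : w N t y < m t := ZMod.val_lt _

lemma qh_ne {N t : ℕ} (ht : t ≠ 0) : ((Q N t * h t : ℕ) : ZMod (m t)) ≠ 0 := by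
  rw [Ne, ZMod.natCast_eq_zero_iff]
  intro hd
  rcases (m_prime ht).dvd_mul.1 hd with hd | hd
  · exact not_dvd_Q ht hd
  · exact not_dvd_h ht hd

lemma w_spec {N t : ℕ} (ht : t ≠ 0) (y : ℕ) :
    ∃ d : ℤ, (w N t y : ℤ) * (Q N t * h t) = y + m t * d := by
  have : Fact (m t).Prime := ⟨m_prime ht⟩
  have h1 : (((w N t y : ℤ) * (Q N t * h t) : ℤ) : ZMod (m t)) = ((y : ℤ) : ZMod (m t)) := by
    have h2 := qh_ne (N := N) ht
    push_cast at h2 ⊢
    rw [w, ZMod.natCast_zmod_val]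
    push_cast
    rw [mul_assoc, inv_mul_cancel₀ h2, mul_one]
  rw [ZMod.intCast_eq_intCast_iff_dvd_sub] at h1
  obtain ⟨d, hd⟩ := h1
  exact ⟨-d, by linear_combination -hd⟩

open Classical in
/-- The tests. -/
noncomputable def u (τ : List ℕ → Bool) (N t y : ℕ) : ℕ :=
  if t = 0 then (if y = 0 then M N else 0) else
  if t < N ∧ y < m t ∧ (ok τ (nd t) = true → y * m (pa t) < m t) then w N t y * Q N t else 0

lemma u_zero (τ : List ℕ → Bool) (N : ℕ) : u τ N 0 0 = M N := by simp [u]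

lemma u_zero' (τ : List ℕ → Bool) (N : ℕ) {y : ℕ} (hy : y ≠ 0) : u τ N 0 y = 0 := by
  simp [u, hy]

lemma u_pos (τ : List ℕ → Bool) {N t y : ℕ} (ht : t ≠ 0)
    (h : t < N ∧ y < m t ∧ (ok τ (nd t) = true → y * m (pa t) < m t)) :
    u τ N t y = w N t y * Q N t := by
  rw [u, if_neg ht, if_pos h]

lemma u_neg (τ : List ℕ → Bool) {N t y : ℕ} (ht : t ≠ 0)
    (h : ¬ (t < N ∧ y < m t ∧ (ok τ (nd t) = true → y * m (pa t) < m t))) :
    u τ N t y = 0 := by
  rw [u, if_neg ht, if_neg h]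

/-- Distance to the integers at most `η`. -/
def Near (η x : ℝ) : Prop := ∃ a : ℤ, |x - a| ≤ η

/-- All tests tend to an integer. -/
def Conv (τ : List ℕ → Bool) (ζ : ℝ) : Prop :=
  ∀ ε : ℝ, 0 < ε → ∃ N₀ : ℕ, ∀ N ≥ N₀, ∀ t y, Near ε (u τ N t y * ζ)

/-- Nearest numerators. -/
noncomputable def P (ζ : ℝ) (N : ℕ) : ℤ := round (M N * ζ)

lemma P_near {ζ η : ℝ} {N : ℕ} (h : Near η (M N * ζ)) : |M N * ζ - P ζ N| ≤ η := by
  obtain ⟨a, ha⟩ := h
  exact (round_le _ a).trans ha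

/-- Coordinates of the numerators. -/
noncomputable def k (ζ : ℝ) (N t : ℕ) : ℤ :=
  ((P ζ N : ZMod (m t)) * ((Q N t * h t : ℕ) : ZMod (m t))⁻¹).valMinAbs

lemma k_le (ζ : ℝ) (N t : ℕ) : 2 * |k ζ N t| ≤ m t := by
  have h1 : (k ζ N t).natAbs ≤ m t / 2 := ZMod.natAbs_valMinAbs_le _
  have h2 : |k ζ N t| = ((k ζ N t).natAbs : ℤ) := Int.abs_eq_natAbs _
  rw [h2]
  omega

lemma k_spec (ζ : ℝ) {N t : ℕ} (ht : t ≠ 0) :
    ∃ d : ℤ, P ζ N = k ζ N t * (Q N t * h t) + m t * d := by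
  have : Fact (m t).Prime := ⟨m_prime ht⟩
  have h1 : ((P ζ N : ℤ) : ZMod (m t)) = ((k ζ N t * (Q N t * h t) : ℤ) : ZMod (m t)) := by
    have h2 := qh_ne (N := N) ht
    push_cast at h2 ⊢
    rw [k, ZMod.coe_valMinAbs]
    push_cast
    rw [mul_assoc, inv_mul_cancel₀ h2, mul_one]
  rw [ZMod.intCast_eq_intCast_iff_dvd_sub] at h1
  obtain ⟨d, hd⟩ := h1
  exact ⟨-d, by linear_combination -hd⟩

/-- (B) the value of a test. -/
lemma test_val {τ : List ℕ → Bool} {ζ η : ℝ} {N t y : ℕ} (ht : t ≠ 0)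
    (h : t < N ∧ y < m t ∧ (ok τ (nd t) = true → y * m (pa t) < m t))
    (h1 : Near η (M N * ζ)) (h2 : Near η (u τ N t y * ζ)) :
    ∃ a : ℤ, |(k ζ N t * y - a * m t : ℝ)| ≤ 2 * η * m t := by
  obtain ⟨b, hb⟩ := h2
  have hP := P_near h1
  rw [u_pos τ ht h] at hb
  obtain ⟨d1, hd1⟩ := k_spec ζ (N := N) ht
  obtain ⟨d2, hd2⟩ := w_spec (N := N) ht y
  have hη : 0 ≤ η := (abs_nonneg _).trans hP
  have hw : (w N t y : ℝ) ≤ m t := by exact_mod_cast (w_lt N t y).le
  have hw0 : (0 : ℝ) ≤ w N t y := by positivity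
  have hm0 : (0 : ℝ) < m t := by exact_mod_cast m_pos t
  have hMQ : (m t : ℝ) * Q N t = M N := by exact_mod_cast m_mul_Q h.1
  have e1 : |(w N t y : ℝ) * (M N * ζ) - b * m t| ≤ η * m t := by
    have : (w N t y : ℝ) * (M N * ζ) - b * m t = m t * (((w N t y * Q N t : ℕ) : ℝ) * ζ - b) := by
      rw [← hMQ]; push_cast; ring
    rw [this, abs_mul, abs_of_pos hm0, mul_comm]
    exact mul_le_mul_of_nonneg_right hb hm0.le
  have e2 : |(w N t y : ℝ) * (M N * ζ) - w N t y * P ζ N| ≤ η * m t := by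
    rw [← mul_sub, abs_mul, abs_of_nonneg hw0, mul_comm]
    exact mul_le_mul hP hw hw0 hη
  have e3 : (w N t y : ℝ) * P ζ N = k ζ N t * y + m t * (k ζ N t * d2 + w N t y * d1) := by
    have : (w N t y : ℤ) * P ζ N = k ζ N t * y + m t * (k ζ N t * d2 + w N t y * d1) := by
      rw [hd1]
      linear_combination (k ζ N t) * hd2
    exact_mod_cast this
  refine ⟨b - (k ζ N t * d2 + w N t y * d1), ?_⟩
  have e4 : (k ζ N t * y - ((b - (k ζ N t * d2 + w N t y * d1) : ℤ) : ℝ) * m t : ℝ) =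
      ((w N t y : ℝ) * (M N * ζ) - b * m t) - ((w N t y : ℝ) * (M N * ζ) - w N t y * P ζ N) := by
    rw [e3]; push_cast; ring
  rw [e4]
  calc _ ≤ |(w N t y : ℝ) * (M N * ζ) - b * m t| + |(w N t y : ℝ) * (M N * ζ) - w N t y * P ζ N| :=
        abs_sub _ _
    _ ≤ 2 * η * m t := by linarith

/-- (A) -/
lemma small_of_tests {K q η : ℝ} (hq : 0 < q) (hη : 8 * η < 1) (hK : 2 * |K| ≤ q) (Y : ℕ)
    (h : ∀ y ≤ Y, ∃ a : ℤ, |K * (y : ℕ) - a * q| ≤ 2 * η * q) : Y * |K| ≤ 2 * η * q := by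
  induction Y with
  | zero =>
    obtain ⟨a, ha⟩ := h 0 le_rfl
    have := (abs_nonneg _).trans ha
    simpa using this
  | succ Y ih =>
    have h1 := ih fun y hy => h y (by omega)
    obtain ⟨a, ha⟩ := h (Y + 1) le_rfl
    have e1 : |K * ((Y + 1 : ℕ) : ℝ)| = (Y + 1) * |K| := by
      rw [abs_mul, mul_comm]
      congr 1
      push_cast
      exact abs_of_nonneg (by positivity)
    have e2 : |(a : ℝ) * q| ≤ |K * ((Y + 1 : ℕ) : ℝ)| + 2 * η * q := by
      have : (a : ℝ) * q = K * ((Y + 1 : ℕ) : ℝ) - (K * ((Y + 1 : ℕ) : ℝ) - a * q) := by ring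
      calc |(a : ℝ) * q| = |K * ((Y + 1 : ℕ) : ℝ) - (K * ((Y + 1 : ℕ) : ℝ) - a * q)| := by
            rw [← this]
        _ ≤ _ := (abs_sub _ _).trans (by linarith)
    rw [e1, abs_mul, abs_of_pos hq] at e2
    have e3 : |(a : ℝ)| < 1 := by
      by_contra hc
      push Not at hc
      have : q ≤ |(a : ℝ)| * q := by nlinarith
      nlinarith
    have e4 : a = 0 := by
      have : |a| < 1 := by exact_mod_cast e3
      exact Int.abs_lt_one_iff.1 this
    rw [e4, Int.cast_zero, zero_mul, sub_zero, e1] at ha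
    push_cast
    exact ha

/-- (C) -/
lemma k_ok {τ : List ℕ → Bool} {ζ : ℝ} {N t : ℕ} (ht : t ≠ 0) (htN : t < N)
    (H : ∀ t y, Near (1 / 64) (u τ N t y * ζ)) (_hok : ok τ (nd t) = true) :
    16 * |k ζ N t| ≤ m (pa t) := by
  have h1 : Near (1 / 64) (M N * ζ) := by have := H 0 0; rwa [u_zero] at this
  have hs := m_pos (pa t)
  have hst := m_lt (pa_lt ht)
  have h2 := small_of_tests (K := k ζ N t) (q := m t) (η := 1 / 64) (by exact_mod_cast m_pos t)
    (by norm_num) (by exact_mod_cast k_le ζ N t) ((m t - 1) / m (pa t)) (by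
      intro y hy
      have h3 : y * m (pa t) ≤ m t - 1 := (Nat.le_div_iff_mul_le hs).1 hy
      have h4 : y * m (pa t) < m t := by have := m_pos t; omega
      have h5 : y < m t := by nlinarith
      exact test_val ht ⟨htN, h5, fun _ => h4⟩ h1 (H t y))
  set Y := (m t - 1) / m (pa t) with hY
  have h3 : m t ≤ (Y + 1) * m (pa t) := by
    have := Nat.lt_div_mul_add (a := m t - 1) hs
    rw [← hY] at this
    have e : (Y + 1) * m (pa t) = Y * m (pa t) + m (pa t) := by ring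
    omega
  have h4 : 15 * (m t : ℝ) ≤ 16 * (Y * m (pa t)) := by
    have a1 : (m t : ℝ) ≤ (Y + 1) * m (pa t) := by exact_mod_cast h3
    have a2 : 16 * (m (pa t) : ℝ) < m t := by exact_mod_cast hst
    nlinarith
  have hm : (0 : ℝ) < m t := by exact_mod_cast m_pos t
  have hmp : (0 : ℝ) < m (pa t) := by exact_mod_cast hs
  have h5 : (15 : ℝ) * m t * |(k ζ N t : ℝ)| ≤ 16 * (m (pa t) * (1 / 32 * m t)) := by
    have a1 : 15 * (m t : ℝ) * |(k ζ N t : ℝ)| ≤ 16 * (Y * m (pa t)) * |(k ζ N t : ℝ)| :=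
      mul_le_mul_of_nonneg_right h4 (abs_nonneg _)
    have a2 : (m (pa t) : ℝ) * (Y * |(k ζ N t : ℝ)|) ≤ m (pa t) * (2 * (1 / 64) * m t) :=
      mul_le_mul_of_nonneg_left h2 hmp.le
    linarith
  have h6 : 16 * |(k ζ N t : ℝ)| ≤ m (pa t) := by
    have a1 : m t * (16 * |(k ζ N t : ℝ)|) ≤ m t * m (pa t) := by
      nlinarith [abs_nonneg (k ζ N t : ℝ), mul_nonneg hm.le hmp.le]
    exact le_of_mul_le_mul_left a1 hm
  exact_mod_cast h6

lemma k_not_ok {τ : List ℕ → Bool} {ζ : ℝ} {N t : ℕ} (ht : t ≠ 0) (htN : t < N)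
    (H : ∀ t y, Near (1 / 64) (u τ N t y * ζ)) (hok : ok τ (nd t) ≠ true) :
    k ζ N t = 0 := by
  have h1 : Near (1 / 64) (M N * ζ) := by have := H 0 0; rwa [u_zero] at this
  have h2m := (m_prime ht).two_le
  have h2 := small_of_tests (K := k ζ N t) (q := m t) (η := 1 / 64) (by exact_mod_cast m_pos t)
    (by norm_num) (by exact_mod_cast k_le ζ N t) (m t - 1) (by
      intro y hy
      have h5 : y < m t := by omega
      exact test_val ht ⟨htN, h5, fun h => (hok h).elim⟩ h1 (H t y))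
  have hm : (2 : ℝ) ≤ m t := by exact_mod_cast h2m
  have e1 : ((m t - 1 : ℕ) : ℝ) = m t - 1 := by
    rw [Nat.cast_sub (by omega)]; simp
  rw [e1] at h2
  have h3 : |(k ζ N t : ℝ)| < 1 := by
    by_contra hc
    push Not at hc
    nlinarith
  have : |k ζ N t| < 1 := by exact_mod_cast h3
  exact Int.abs_lt_one_iff.1 this

lemma k_bound {τ : List ℕ → Bool} {ζ : ℝ} {N t : ℕ} (ht : t ≠ 0) (htN : t < N)
    (H : ∀ t y, Near (1 / 64) (u τ N t y * ζ)) : 16 * |k ζ N t| ≤ m (pa t) := by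
  by_cases hok : ok τ (nd t) = true
  · exact k_ok ht htN H hok
  · rw [k_not_ok ht htN H hok]
    simp

/-- (D) -/
lemma step {τ : List ℕ → Bool} {ζ : ℝ} {N : ℕ} (hN : N ≠ 0)
    (H : ∀ t y, Near (1 / 64) (u τ N t y * ζ)) (H' : ∀ t y, Near (1 / 64) (u τ (N + 1) t y * ζ)) :
    P ζ (N + 1) = m N * P ζ N + k ζ (N + 1) N * (e N * Q N (pa N)) := by
  have h1 : Near (1 / 64) (M N * ζ) := by have := H 0 0; rwa [u_zero] at this
  have h1' : Near (1 / 64) (M (N + 1) * ζ) := by have := H' 0 0; rwa [u_zero] at this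
  have p1 := P_near h1
  have p2 := P_near h1'
  have hk := k_bound hN (Nat.lt_succ_self N) H'
  obtain ⟨d, hd⟩ := k_spec ζ (N := N + 1) hN
  rw [Q_succ_self] at hd
  have hMQ : (m (pa N) : ℤ) * Q N (pa N) = M N := by exact_mod_cast m_mul_Q (pa_lt hN)
  have e1 : P ζ (N + 1) - (m N * P ζ N + k ζ (N + 1) N * (e N * Q N (pa N))) =
      m N * (d + k ζ (N + 1) N * Q N (pa N) * h (pa N) - P ζ N) := by
    rw [hd, ← hMQ, e]; ring
  have hb := e_bd hN
  have hkey : |k ζ (N + 1) N * (e N * Q N (pa N))| * 256 ≤ m N := by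
    have a1 : |k ζ (N + 1) N * (e N * Q N (pa N))| = |k ζ (N + 1) N| * (e N * Q N (pa N)) := by
      rw [abs_mul, abs_of_nonneg (a := e N * Q N (pa N))]
      exact mul_nonneg hb.1.le (by positivity)
    have a2 : e N * Q N (pa N) ≤ M N := by
      rw [← hMQ]
      exact mul_le_mul_of_nonneg_right hb.2 (by positivity)
    have a3 : (m (pa N) : ℤ) ≤ M N := by exact_mod_cast m_le_M (pa_lt hN)
    have a4 : (16 * (N + 1) * M N ^ 2 + 2 : ℤ) ≤ m N := by exact_mod_cast m_big hN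
    have a5 : (0 : ℤ) < M N := by exact_mod_cast M_pos N
    have a6 : 16 * (|k ζ (N + 1) N| * (e N * Q N (pa N))) ≤ (M N : ℤ) ^ 2 := by
      calc 16 * (|k ζ (N + 1) N| * (e N * Q N (pa N)))
          = (16 * |k ζ (N + 1) N|) * (e N * Q N (pa N)) := by ring
        _ ≤ M N * M N := by
            apply mul_le_mul (hk.trans a3) a2 _ a5.le
            exact mul_nonneg hb.1.le (by positivity)
        _ = (M N : ℤ) ^ 2 := by ring
    rw [a1]
    have a7 : (0 : ℤ) ≤ N := by positivity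
    have a8 : 16 * (M N : ℤ) ^ 2 ≤ 16 * (N + 1) * (M N : ℤ) ^ 2 := by
      nlinarith [sq_nonneg (M N : ℤ)]
    linarith
  have e2 : |((P ζ (N + 1) - (m N * P ζ N + k ζ (N + 1) N * (e N * Q N (pa N))) : ℤ) : ℝ)| <
      m N := by
    have hm : (2 : ℝ) ≤ m N := by exact_mod_cast (m_prime hN).two_le
    have b1 : |((k ζ (N + 1) N * (e N * Q N (pa N)) : ℤ) : ℝ)| * 256 ≤ m N := by
      exact_mod_cast hkey
    have b2 : |(m N : ℝ) * (M N * ζ - P ζ N)| ≤ 1 / 64 * m N := by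
      rw [abs_mul, abs_of_pos (by linarith), mul_comm]
      exact mul_le_mul_of_nonneg_right p1 (by linarith)
    have b3 : ((P ζ (N + 1) - (m N * P ζ N + k ζ (N + 1) N * (e N * Q N (pa N))) : ℤ) : ℝ) =
        -(M (N + 1) * ζ - P ζ (N + 1)) + (m N : ℝ) * (M N * ζ - P ζ N)
          - ((k ζ (N + 1) N * (e N * Q N (pa N)) : ℤ) : ℝ) := by
      rw [M_succ]; push_cast; ring
    rw [b3, abs_lt]
    have c1 := abs_le.1 p2
    have c2 := abs_le.1 b2
    have c3 := abs_le.1 (show |((k ζ (N + 1) N * (e N * Q N (pa N)) : ℤ) : ℝ)| ≤ m N / 256 by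
      linarith)
    constructor <;> linarith [c1.1, c1.2, c2.1, c2.2, c3.1, c3.2]
  have e3 : P ζ (N + 1) - (m N * P ζ N + k ζ (N + 1) N * (e N * Q N (pa N))) = 0 := by
    refine Int.eq_zero_of_abs_lt_dvd (m := m N) ⟨_, e1⟩ ?_
    exact_mod_cast e2
  linarith

/-- (E) -/
lemma k_succ {τ : List ℕ → Bool} {ζ : ℝ} {N l : ℕ} (hl : l ≠ 0) (hlN : l < N)
    (H : ∀ t y, Near (1 / 64) (u τ N t y * ζ)) (H' : ∀ t y, Near (1 / 64) (u τ (N + 1) t y * ζ))
    (hc : ¬ (pa N = l ∧ k ζ (N + 1) N ≠ 0)) : k ζ (N + 1) l = k ζ N l := by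
  have : Fact (m l).Prime := ⟨m_prime hl⟩
  have hs := step (by omega) H H'
  have h1 : ((P ζ (N + 1) : ℤ) : ZMod (m l)) = (m N : ZMod (m l)) * P ζ N := by
    have h2 : ((k ζ (N + 1) N * (e N * Q N (pa N)) : ℤ) : ZMod (m l)) = 0 := by
      by_cases hk : k ζ (N + 1) N = 0
      · rw [hk]; simp
      · have : pa N ≠ l := fun hp => hc ⟨hp, hk⟩
        have hd := dvd_Q hlN this.symm
        rw [ZMod.intCast_zmod_eq_zero_iff_dvd]
        exact Dvd.dvd.mul_left (Dvd.dvd.mul_left (by exact_mod_cast hd) _) _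
    rw [hs, Int.cast_add, h2, add_zero]
    push_cast
    rfl
  have hmN : (m N : ZMod (m l)) ≠ 0 := by
    rw [Ne, ZMod.natCast_eq_zero_iff]
    exact not_dvd_m hl (by omega)
  have hq := qh_ne (N := N) hl
  rw [k, k, h1, Q_succ hlN]
  congr 1
  push_cast at hq ⊢
  have h3 : (Q N l : ZMod (m l)) ≠ 0 := fun h => hq (by rw [h, zero_mul])
  have h4 : (h l : ZMod (m l)) ≠ 0 := fun h => hq (by rw [h, mul_zero])
  field_simp

/-- (F) -/
lemma k_eventually {τ : List ℕ → Bool} {ζ : ℝ} (H : Conv τ ζ) {t : ℕ} (ht : t ≠ 0) :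
    ∃ N₁, ∀ N ≥ N₁, k ζ N t = 0 := by
  have hm : (0 : ℝ) < m t := by exact_mod_cast m_pos t
  obtain ⟨N₀, hN⟩ := H (1 / (4 * m t)) (by positivity)
  refine ⟨max N₀ (t + 1), fun N hN' => ?_⟩
  have h0 := hN N ((le_max_left _ _).trans hN')
  have htN : t < N := (le_max_right _ _).trans hN'
  have h1 : Near (1 / (4 * m t)) (M N * ζ) := by have := h0 0 0; rwa [u_zero] at this
  have hst := m_lt (pa_lt ht)
  obtain ⟨a, ha⟩ := test_val (y := 1) ht ⟨htN, (m_prime ht).one_lt, fun _ => by omega⟩ h1 (h0 t 1)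
  have h2 : |(k ζ N t * ((1 : ℕ) : ℝ) - a * m t : ℝ)| < 1 := by
    refine lt_of_le_of_lt ha ?_
    have : 2 * (1 / (4 * (m t : ℝ))) * m t = 1 / 2 := by field_simp; norm_num
    rw [this]; norm_num
  have h3 : |k ζ N t - a * m t| < 1 := by
    have : (k ζ N t * ((1 : ℕ) : ℝ) - a * m t : ℝ) = ((k ζ N t - a * m t : ℤ) : ℝ) := by
      push_cast; ring
    rw [this] at h2
    exact_mod_cast h2
  have h4 : k ζ N t = a * m t := by
    have := Int.abs_lt_one_iff.1 h3
    linarith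
  have h5 := k_le ζ N t
  have hm' : (0 : ℤ) < m t := by exact_mod_cast m_pos t
  rw [h4, abs_mul, abs_of_pos hm'] at h5
  have h6 : |a| < 1 := by
    by_contra hc
    push Not at hc
    nlinarith
  rw [h4, Int.abs_lt_one_iff.1 h6, zero_mul]

lemma exists_ext (s : List ℕ) : ∀ x : ℕ → ℕ, ∃ z : ℕ → ℕ, s = br z s.length ∧
    ∀ j, z (s.length + j) = x j := by
  induction s with
  | nil => exact fun x => ⟨x, rfl, fun j => by simp⟩
  | cons i s ih =>
    intro x
    obtain ⟨z, h1, h2⟩ := ih (fun j => if j = 0 then i else x (j - 1))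
    refine ⟨z, ?_, fun j => ?_⟩
    · rw [List.length_cons]
      have := h2 0
      simp only [add_zero, if_true] at this
      show i :: s = z s.length :: br z s.length
      rw [this, ← h1]
    · have := h2 (j + 1)
      simp only [Nat.add_eq_zero_iff, one_ne_zero, and_false, if_false, Nat.add_sub_cancel] at this
      rw [← this, List.length_cons]
      congr 1
      omega

lemma nd_zero : nd 0 = [] := nd_encode []

/-- A solution gives a branch. -/
theorem branch_of_conv {τ : List ℕ → Bool} {ζ : ℝ} (hζ : Irrational ζ) (H : Conv τ ζ) :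
    τ ∈ IF := by
  classical
  obtain ⟨N₀, hN₀⟩ := H (1 / 64) (by norm_num)
  set N₁ := max N₀ 1 with hN₁
  have hT : ∀ N ≥ N₁, ∀ t y, Near (1 / 64) (u τ N t y * ζ) := fun N hN =>
    hN₀ N ((le_max_left _ _).trans hN)
  have hpos : ∀ N ≥ N₁, N ≠ 0 := fun N hN => by
    have : 1 ≤ N := (le_max_right _ _).trans hN
    omega
  have hnext : ∀ t, N₁ ≤ t ∧ k ζ (t + 1) t ≠ 0 →
      ∃ t', (N₁ ≤ t' ∧ k ζ (t' + 1) t' ≠ 0) ∧ pa t' = t := by
    rintro t ⟨ht, hk⟩
    by_contra hc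
    have h1 : ∀ N, t + 1 ≤ N → k ζ N t = k ζ (t + 1) t := by
      intro N hN
      induction N, hN using Nat.le_induction with
      | base => rfl
      | succ N hN ih =>
        rw [← ih]
        exact k_succ (hpos t ht) (by omega) (hT N (by omega)) (hT (N + 1) (by omega))
          (fun h => hc ⟨N, ⟨by omega, h.2⟩, h.1⟩)
    obtain ⟨N₂, h2⟩ := k_eventually H (hpos t ht)
    apply hk
    rw [← h1 (max N₂ (t + 1)) (le_max_right _ _)]
    exact h2 _ (le_max_left _ _)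
  have hstart : ∃ t, N₁ ≤ t ∧ k ζ (t + 1) t ≠ 0 := by
    by_contra hc
    push Not at hc
    have h1 : ∀ N, N₁ ≤ N → (P ζ N : ℝ) * M N₁ = M N * P ζ N₁ := by
      intro N hN
      induction N, hN using Nat.le_induction with
      | base => ring
      | succ N hN ih =>
        have hs := step (hpos N hN) (hT N hN) (hT (N + 1) (by omega))
        rw [hc N hN, zero_mul, add_zero] at hs
        rw [hs, M_succ]
        push_cast
        linear_combination (m N : ℝ) * ih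
    have hM1 : (0 : ℝ) < M N₁ := by exact_mod_cast M_pos N₁
    have h2 : ∀ N ≥ N₁, |M N₁ * ζ - P ζ N₁| * M N ≤ M N₁ := by
      intro N hN
      have a1 : Near (1 / 64) (M N * ζ) := by have := hT N hN 0 0; rwa [u_zero] at this
      have a2 := P_near a1
      have a3 : (0 : ℝ) ≤ M N := by positivity
      have a4 : |(M N₁ * ζ - P ζ N₁) * M N| = |(M N * ζ - P ζ N) * M N₁| := by
        congr 1
        linear_combination h1 N hN
      rw [abs_mul, abs_of_nonneg a3, abs_mul, abs_of_pos hM1] at a4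
      rw [a4]
      nlinarith
    have h3 : |M N₁ * ζ - P ζ N₁| = 0 := by
      by_contra hne
      have hpos' : 0 < |M N₁ * ζ - P ζ N₁| := lt_of_le_of_ne (abs_nonneg _) (Ne.symm hne)
      obtain ⟨n, hn⟩ := exists_nat_gt ((M N₁ : ℝ) / |M N₁ * ζ - P ζ N₁|)
      have b1 := h2 (max N₁ (n + 1)) (le_max_left _ _)
      have b2 : (n : ℝ) ≤ M (max N₁ (n + 1)) := by
        have := (le_m n).trans (m_le_M (n := max N₁ (n + 1)) (by
          exact lt_of_lt_of_le (Nat.lt_succ_self n) (le_max_right _ _)))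
        exact_mod_cast this
      rw [div_lt_iff₀ hpos'] at hn
      nlinarith
    rw [abs_eq_zero] at h3
    apply hζ
    refine ⟨(P ζ N₁ : ℚ) / M N₁, ?_⟩
    push_cast
    rw [div_eq_iff hM1.ne']
    linarith
  obtain ⟨t₀, ht₀⟩ := hstart
  choose! g hg1 hg2 using hnext
  set T : ℕ → ℕ := fun j => g^[j] t₀ with hTdef
  have hT0 : T 0 = t₀ := rfl
  have hTs : ∀ j, T (j + 1) = g (T j) := fun j => Function.iterate_succ_apply' g j t₀
  have hTG : ∀ j, N₁ ≤ T j ∧ k ζ (T j + 1) (T j) ≠ 0 := by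
    intro j
    induction j with
    | zero => exact ht₀
    | succ j ih => rw [hTs]; exact hg1 _ ih
  have hTp : ∀ j, pa (T (j + 1)) = T j := fun j => by rw [hTs]; exact hg2 _ (hTG j)
  have hx : ∀ j, ∃ i, nd (T (j + 1)) = i :: nd (T j) := by
    intro j
    have := nd_eq (hpos _ (hTG (j + 1)).1)
    rwa [hTp] at this
  choose x hx using hx
  obtain ⟨z, hz1, hz2⟩ := exists_ext (nd t₀) x
  have hbr : ∀ j, nd (T j) = br z ((nd t₀).length + j) := by
    intro j
    induction j with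
    | zero => rw [hT0]; exact hz1
    | succ j ih =>
      rw [hx, ih, ← hz2 j]
      rfl
  have hok : ∀ j, ok τ (nd (T j)) = true := by
    intro j
    by_contra hc
    exact (hTG j).2 (k_not_ok (hpos _ (hTG j).1) (Nat.lt_succ_self _)
      (hT _ ((hTG j).1.trans (Nat.le_succ _))) hc)
  refine ⟨z, fun n => ?_⟩
  have := hok n
  rw [hbr] at this
  exact ok_br this n (by omega)

end Pool.Agent.Q304.RG
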