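import Mathlib
import Pool.Agent.Q304.RG.Test

/-!
# A branch gives an irrational solution
-/

set_option autoImplicit false

open Finset

namespace Pool.Agent.Q304.RG

open Pool.Agent.H731R3.Tame

/-- Codes along a branch. -/
def c (x : ℕ → ℕ) (j : ℕ) : ℕ := Encodable.encode (br x j)

lemma nd_c (x : ℕ → ℕ) (j : ℕ) : nd (c x j) = br x j := nd_encode _

lemma c_zero (x : ℕ → ℕ) : c x 0 = 0 := rfl

lemma c_lt (x : ℕ → ℕ) (j : ℕ) : c x j < c x (j + 1) := encode_lt _ _

lemma pa_c (x : ℕ → ℕ) (j : ℕ) : pa (c x (j + 1)) = c x j := by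
  rw [pa, nd_c]; rfl

lemma c_mono (x : ℕ → ℕ) : StrictMono (c x) := strictMono_nat_of_lt_succ (c_lt x)

lemma le_c (x : ℕ → ℕ) (j : ℕ) : j ≤ c x j := (c_mono x).le_apply

lemma c_succ_ne (x : ℕ → ℕ) (j : ℕ) : c x (j + 1) ≠ 0 := by
  have := c_lt x j
  omega

lemma mR (t : ℕ) : (0 : ℝ) < m t := by exact_mod_cast m_pos t

/-- Partial values. -/
noncomputable def sg (x : ℕ → ℕ) (j : ℕ) : ℝ := h (c x j) / m (c x j)

lemma sg_succ (x : ℕ → ℕ) (j : ℕ) :
    sg x (j + 1) - sg x j = (e (c x (j + 1)) : ℝ) / m (c x j) / m (c x (j + 1)) := by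
  have h1 := mR (c x j)
  have h2 := mR (c x (j + 1))
  rw [sg, sg, e, pa_c]
  push_cast
  field_simp

lemma sg_lt (x : ℕ → ℕ) (j : ℕ) : sg x j < sg x (j + 1) := by
  have h1 := mR (c x j)
  have h2 := mR (c x (j + 1))
  have h3 : (0 : ℝ) < e (c x (j + 1)) := by exact_mod_cast (e_bd (c_succ_ne x j)).1
  have h4 := sg_succ x j
  have : 0 < (e (c x (j + 1)) : ℝ) / m (c x j) / m (c x (j + 1)) := by positivity
  linarith

lemma sg_le (x : ℕ → ℕ) (j : ℕ) : sg x (j + 1) ≤ sg x j + 1 / m (c x (j + 1)) := by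
  have h1 := mR (c x j)
  have h2 := mR (c x (j + 1))
  have h3 : (e (c x (j + 1)) : ℝ) ≤ m (c x j) := by
    have := (e_bd (c_succ_ne x j)).2
    rw [pa_c] at this
    exact_mod_cast this
  have h4 := sg_succ x j
  have h5 : (e (c x (j + 1)) : ℝ) / m (c x j) ≤ 1 := (div_le_one h1).2 h3
  have : (e (c x (j + 1)) : ℝ) / m (c x j) / m (c x (j + 1)) ≤ 1 / m (c x (j + 1)) :=
    div_le_div_of_nonneg_right h5 h2.le
  linarith

lemma sg_strictMono (x : ℕ → ℕ) : StrictMono (sg x) := strictMono_nat_of_lt_succ (sg_lt x)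

/-- Upper bounds. -/
noncomputable def tt (x : ℕ → ℕ) (j : ℕ) : ℝ := sg x j + 2 / m (c x (j + 1))

lemma tt_anti (x : ℕ → ℕ) : Antitone (tt x) := by
  refine antitone_nat_of_succ_le fun j => ?_
  have h1 := mR (c x (j + 1))
  have h2 := mR (c x (j + 2))
  have h3 : (16 : ℝ) * m (c x (j + 1)) < m (c x (j + 2)) := by
    exact_mod_cast m_lt (c_lt x (j + 1))
  have h4 : (2 : ℝ) / m (c x (j + 2)) ≤ 1 / m (c x (j + 1)) := by
    rw [div_le_div_iff₀ h2 h1]; linarith
  have h5 := sg_le x j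
  have h6 : (2 : ℝ) / m (c x (j + 1)) = 1 / m (c x (j + 1)) + 1 / m (c x (j + 1)) := by ring
  rw [tt, tt, h6, show j + 1 + 1 = j + 2 from rfl]
  linarith

lemma sg_le_tt (x : ℕ → ℕ) (i j : ℕ) : sg x i ≤ tt x j := by
  have h1 : sg x i ≤ sg x (max i j) := (sg_strictMono x).monotone (le_max_left _ _)
  have h2 : sg x (max i j) ≤ tt x (max i j) := by
    rw [tt]
    have := mR (c x (max i j + 1))
    have : (0 : ℝ) < 2 / m (c x (max i j + 1)) := by positivity
    linarith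
  exact h1.trans (h2.trans (tt_anti x (le_max_right _ _)))

/-- The rotation number of a branch. -/
noncomputable def zt (x : ℕ → ℕ) : ℝ := ⨆ j, sg x j

lemma zt_le (x : ℕ → ℕ) (j : ℕ) : zt x ≤ sg x j + 2 / m (c x (j + 1)) :=
  ciSup_le fun i => sg_le_tt x i j

lemma lt_zt (x : ℕ → ℕ) (j : ℕ) : sg x j < zt x :=
  lt_of_lt_of_le (sg_lt x j) (le_ciSup (f := sg x) ⟨tt x 0, by rintro _ ⟨i, rfl⟩; exact sg_le_tt x i 0⟩
    (j + 1))

lemma M_delta (x : ℕ → ℕ) {j N : ℕ} (hN : N ≤ c x (j + 1)) :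
    M N * (zt x - sg x j) ≤ 1 / (8 * (N + 1)) := by
  set a := c x (j + 1) with ha
  have h1 := zt_le x j
  rw [← ha] at h1
  have hm := mR a
  have hM : (0 : ℝ) < M a := by exact_mod_cast M_pos a
  have hMN : (M N : ℝ) ≤ M a := by exact_mod_cast M_le_M hN
  have h2 : (16 * (a + 1) * M a : ℝ) < m a := by exact_mod_cast M_lt_m (c_succ_ne x j)
  have hNa : (N : ℝ) ≤ a := by exact_mod_cast hN
  have hd : 0 < zt x - sg x j := sub_pos.2 (lt_zt x j)
  calc M N * (zt x - sg x j) ≤ M a * (2 / m a) :=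
        mul_le_mul hMN (by linarith) hd.le hM.le
    _ ≤ 1 / (8 * (a + 1)) := by
        rw [← mul_div_assoc, div_le_div_iff₀ hm (by positivity)]
        linarith
    _ ≤ 1 / (8 * (N + 1)) := by
        apply one_div_le_one_div_of_le (by positivity)
        linarith

lemma M_sg (x : ℕ → ℕ) {j N : ℕ} (hN : c x j < N) :
    (M N : ℝ) * sg x j = (Q N (c x j) * h (c x j) : ℕ) := by
  have h1 : (m (c x j) : ℝ) * Q N (c x j) = M N := by exact_mod_cast m_mul_Q hN
  have h2 := mR (c x j)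
  rw [sg, ← h1]
  push_cast
  field_simp

lemma near_tests {τ : List ℕ → Bool} {x : ℕ → ℕ} (hx : ∀ n, τ (br x n) = true) {j N : ℕ}
    (h1 : c x (j + 1) < N) (h2 : N ≤ c x (j + 2)) (t y : ℕ) :
    Near (1 / m (c x j) + 1 / (8 * (N + 1))) (u τ N t y * zt x) := by
  have hd := M_delta x h2
  have hd0 : 0 < zt x - sg x (j + 1) := sub_pos.2 (lt_zt x (j + 1))
  have hmj := mR (c x j)
  have hB : (0 : ℝ) < 1 / m (c x j) := by positivity
  have hA : (0 : ℝ) < 1 / (8 * (N + 1)) := by positivity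
  rcases eq_or_ne t 0 with rfl | ht
  · rcases eq_or_ne y 0 with rfl | hy
    · rw [u_zero]
      refine ⟨(Q N (c x (j + 1)) * h (c x (j + 1)) : ℕ), ?_⟩
      rw [Int.cast_natCast, ← M_sg x h1, ← mul_sub, abs_of_nonneg (by positivity)]
      linarith
    · rw [u_zero' τ N hy]
      refine ⟨0, ?_⟩
      simp only [Nat.cast_zero, zero_mul, Int.cast_zero, sub_zero, abs_zero]
      linarith
  by_cases hal : t < N ∧ y < m t ∧ (ok τ (nd t) = true → y * m (pa t) < m t)
  swap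
  · rw [u_neg τ ht hal]
    refine ⟨0, ?_⟩
    simp only [Nat.cast_zero, zero_mul, Int.cast_zero, sub_zero, abs_zero]
    linarith
  rw [u_pos τ ht hal]
  have hw : (w N t y : ℝ) ≤ m t := by exact_mod_cast (w_lt N t y).le
  have hMQ : (m t : ℝ) * Q N t = M N := by exact_mod_cast m_mul_Q hal.1
  have hQ0 : (0 : ℝ) ≤ Q N t := by positivity
  have hw0 : (0 : ℝ) ≤ w N t y := by positivity
  have hsmall : ((w N t y * Q N t : ℕ) : ℝ) * (zt x - sg x (j + 1)) ≤ 1 / (8 * (N + 1)) := by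
    refine le_trans ?_ hd
    apply mul_le_mul_of_nonneg_right _ hd0.le
    rw [← hMQ]
    push_cast
    exact mul_le_mul_of_nonneg_right hw hQ0
  have hsmall0 : 0 ≤ ((w N t y * Q N t : ℕ) : ℝ) * (zt x - sg x (j + 1)) := by positivity
  have hmt := mR t
  by_cases htc : t = c x (j + 1)
  · obtain ⟨d, hd'⟩ := w_spec (N := N) ht y
    have hok : ok τ (nd t) = true := by rw [htc, nd_c]; exact ok_of_br hx _
    have hy := hal.2.2 hok
    rw [htc, pa_c, ← htc] at hy
    have hy' : (y : ℝ) / m t ≤ 1 / m (c x j) := by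
      rw [div_le_div_iff₀ hmt hmj]
      have : (y : ℝ) * m (c x j) < m t := by exact_mod_cast hy
      linarith
    have hy0 : (0 : ℝ) ≤ (y : ℝ) / m t := by positivity
    have hv : ((w N t y * Q N t : ℕ) : ℝ) * sg x (j + 1) = y / m t + d := by
      rw [sg, ← htc]
      have : (w N t y : ℝ) * (Q N t * h t) = y + m t * d := by exact_mod_cast hd'
      push_cast
      field_simp
      linarith
    refine ⟨d, ?_⟩
    have e1 : ((w N t y * Q N t : ℕ) : ℝ) * zt x - d =
        y / m t + ((w N t y * Q N t : ℕ) : ℝ) * (zt x - sg x (j + 1)) := by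
      linear_combination hv
    rw [e1, abs_of_nonneg (by linarith)]
    linarith
  · obtain ⟨q, hq⟩ := dvd_Q (t := t) h1 (Ne.symm htc)
    have hv : ((w N t y * Q N t : ℕ) : ℝ) * sg x (j + 1) = (w N t y * q * h (c x (j + 1)) : ℕ) := by
      rw [sg, hq]
      have := mR (c x (j + 1))
      push_cast
      field_simp
    refine ⟨(w N t y * q * h (c x (j + 1)) : ℕ), ?_⟩
    have e1 : ((w N t y * Q N t : ℕ) : ℝ) * zt x - ((w N t y * q * h (c x (j + 1)) : ℕ) : ℝ) =
        ((w N t y * Q N t : ℕ) : ℝ) * (zt x - sg x (j + 1)) := by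
      rw [← hv]; ring
    rw [Int.cast_natCast, e1, abs_of_nonneg hsmall0]
    linarith

lemma exists_level (x : ℕ → ℕ) {N : ℕ} (hN : 0 < N) : ∃ j, c x j < N ∧ N ≤ c x (j + 1) := by
  classical
  have hex : ∃ j, N ≤ c x (j + 1) := ⟨N, (Nat.le_succ N).trans (le_c x (N + 1))⟩
  refine ⟨Nat.find hex, ?_, Nat.find_spec hex⟩
  rcases Nat.eq_zero_or_pos (Nat.find hex) with h0 | h0
  · rw [h0, c_zero]; exact hN
  · have := Nat.find_min hex (m := Nat.find hex - 1) (by omega)
    rw [Nat.sub_add_cancel h0] at this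
    omega

theorem conv_of_branch {τ : List ℕ → Bool} {x : ℕ → ℕ} (hx : ∀ n, τ (br x n) = true) :
    Conv τ (zt x) := by
  intro ε hε
  obtain ⟨J, hJ⟩ := exists_nat_gt (2 / ε)
  have hJ0 : (0 : ℝ) < J := lt_trans (by positivity) hJ
  have hJε : 1 / (J : ℝ) < ε / 2 := by
    rw [div_lt_iff₀ hε] at hJ
    rw [div_lt_div_iff₀ hJ0 (by norm_num)]
    linarith
  refine ⟨c x (J + 1) + 1, fun N hN t y => ?_⟩
  obtain ⟨i, hi1, hi2⟩ := exists_level x (N := N) (by omega)
  have hiJ : J + 1 ≤ i := by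
    have : c x (J + 1) < c x (i + 1) := by omega
    have := (c_mono x).lt_iff_lt.1 this
    omega
  obtain ⟨j, rfl⟩ : ∃ j, i = j + 1 := ⟨i - 1, by omega⟩
  obtain ⟨a, ha⟩ := near_tests hx hi1 hi2 t y
  refine ⟨a, ha.trans ?_⟩
  have h1 : (J : ℝ) ≤ m (c x j) := by
    have : J ≤ m (c x j) := by
      have := le_c x j
      have := le_m (c x j)
      omega
    exact_mod_cast this
  have h2 : (J : ℝ) ≤ 8 * (N + 1) := by
    have : J ≤ 8 * (N + 1) := by
      have := le_c x (J + 1)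
      omega
    exact_mod_cast this
  have h3 : 1 / (m (c x j) : ℝ) ≤ 1 / J := one_div_le_one_div_of_le hJ0 h1
  have h4 : 1 / (8 * (N + 1) : ℝ) ≤ 1 / J := one_div_le_one_div_of_le hJ0 h2
  linarith

theorem irrational_zt (x : ℕ → ℕ) : Irrational (zt x) := by
  rintro ⟨r, hr⟩
  set j := r.den with hj
  have hden : (0 : ℝ) < r.den := by exact_mod_cast r.den_pos
  have h0 := mR (c x j)
  have h1 := mR (c x (j + 1))
  have e1 : (r.den : ℝ) * zt x = r.num := by
    rw [← hr]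
    exact_mod_cast Rat.den_mul_eq_num r
  have e2 : (m (c x j) : ℝ) * sg x j = h (c x j) := by
    rw [sg]; field_simp
  have hpos : 0 < (r.den : ℝ) * m (c x j) * (zt x - sg x j) := by
    have := sub_pos.2 (lt_zt x j)
    positivity
  have e3 : (r.den : ℝ) * m (c x j) * (zt x - sg x j) =
      ((m (c x j) * r.num - r.den * h (c x j) : ℤ) : ℝ) := by
    push_cast
    linear_combination (m (c x j) : ℝ) * e1 - (r.den : ℝ) * e2
  have h2 : (1 : ℝ) ≤ (r.den : ℝ) * m (c x j) * (zt x - sg x j) := by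
    rw [e3] at hpos ⊢
    exact_mod_cast (Int.cast_pos.1 hpos)
  have h3 := zt_le x j
  have h4 : (16 * (c x (j + 1) + 1) * M (c x (j + 1)) : ℝ) < m (c x (j + 1)) := by
    exact_mod_cast M_lt_m (c_succ_ne x j)
  have h5 : (m (c x j) : ℝ) ≤ M (c x (j + 1)) := by exact_mod_cast m_le_M (c_lt x j)
  have h6 : (r.den : ℝ) ≤ c x (j + 1) := by
    have : r.den ≤ c x (j + 1) := by
      have := le_c x (j + 1)
      omega
    exact_mod_cast this
  have h7 : (r.den : ℝ) * m (c x j) * (zt x - sg x j) ≤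
      r.den * m (c x j) * (2 / m (c x (j + 1))) :=
    mul_le_mul_of_nonneg_left (by linarith) (by positivity)
  have h8 : (r.den : ℝ) * m (c x j) * (2 / m (c x (j + 1))) < 1 := by
    rw [← mul_div_assoc, div_lt_one h1]
    have h9 : (r.den : ℝ) * m (c x j) ≤ c x (j + 1) * M (c x (j + 1)) :=
      mul_le_mul h6 h5 h0.le (by positivity)
    have h10 : (0 : ℝ) ≤ M (c x (j + 1)) := by positivity
    have h11 : (0 : ℝ) ≤ c x (j + 1) := by positivity
    nlinarith
  linarith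

end Pool.Agent.Q304.RG
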