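import Mathlib
import Pool.Agent.Q304.RG.Conv

/-!
# Sequences with an irrational rotation limit are a complete analytic set
-/

set_option autoImplicit false

open Filter Topology MeasureTheory

namespace Pool.Agent.Q304.RG

open Pool.Agent.H731R3.Tame

/-- Sequences of integers `n` with `z ^ n k → 1` for some `z` on the circle that is not a root of
unity. -/
def S : Set (ℕ → ℤ) :=
  {n | ∃ z : ℂ, ‖z‖ = 1 ∧ (∀ q : ℕ, 0 < q → z ^ q ≠ 1) ∧ Tendsto (fun k => z ^ n k) atTop (𝓝 1)}

/-- The sequence of tests of a tree. -/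
noncomputable def seq (τ : List ℕ → Bool) (i : ℕ) : ℤ :=
  u τ i.unpair.1 i.unpair.2.unpair.1 i.unpair.2.unpair.2

lemma norm_le_of_near {δ x : ℝ} (h : Near δ x) :
    ‖Complex.exp (Complex.I * (2 * Real.pi * x : ℝ)) - 1‖ ≤ 2 * Real.pi * δ := by
  obtain ⟨a, ha⟩ := h
  have h1 : Complex.exp (Complex.I * (2 * Real.pi * x : ℝ)) =
      Complex.exp (Complex.I * (2 * Real.pi * (x - a) : ℝ)) := by
    rw [Complex.exp_eq_exp_iff_exists_int]
    exact ⟨a, by push_cast; ring⟩
  rw [h1]
  refine (Real.norm_exp_I_mul_ofReal_sub_one_le).trans ?_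
  rw [Real.norm_eq_abs, abs_mul, abs_of_pos Real.two_pi_pos]
  exact mul_le_mul_of_nonneg_left ha Real.two_pi_pos.le

lemma near_of_norm {δ x : ℝ}
    (h : ‖Complex.exp (Complex.I * (2 * Real.pi * x : ℝ)) - 1‖ ≤ δ) : Near δ x := by
  refine ⟨round x, ?_⟩
  have h1 : Complex.exp (Complex.I * (2 * Real.pi * x : ℝ)) =
      Complex.exp (Complex.I * (2 * Real.pi * (x - round x) : ℝ)) := by
    rw [Complex.exp_eq_exp_iff_exists_int]
    exact ⟨round x, by push_cast; ring⟩
  rw [h1, Complex.norm_exp_I_mul_ofReal_sub_one] at h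
  have h2 : 2 * Real.pi * (x - round x) / 2 = Real.pi * (x - round x) := by ring
  rw [h2, norm_mul, Real.norm_eq_abs, Real.norm_eq_abs, abs_of_pos (by norm_num : (0 : ℝ) < 2)] at h
  have hr := abs_sub_round x
  have h3 : |Real.pi * (x - round x)| ≤ Real.pi / 2 := by
    rw [abs_mul, abs_of_pos Real.pi_pos]
    nlinarith [Real.pi_pos]
  have h4 := Real.mul_abs_le_abs_sin h3
  rw [abs_mul, abs_of_pos Real.pi_pos] at h4
  have h5 : 2 / Real.pi * (Real.pi * |x - round x|) = 2 * |x - round x| := by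
    have := Real.pi_ne_zero
    field_simp
  rw [h5] at h4
  have h6 := abs_nonneg (x - round x)
  linarith

lemma exp_zpow (ζ : ℝ) (n : ℤ) :
    Complex.exp (Complex.I * (2 * Real.pi * ζ : ℝ)) ^ n =
      Complex.exp (Complex.I * (2 * Real.pi * (n * ζ) : ℝ)) := by
  rw [← Complex.exp_int_mul]
  congr 1
  push_cast
  ring

theorem tendsto_of_conv {τ : List ℕ → Bool} {ζ : ℝ} (H : Conv τ ζ) :
    Tendsto (fun i => Complex.exp (Complex.I * (2 * Real.pi * ζ : ℝ)) ^ seq τ i) atTop (𝓝 1) := by
  rw [Metric.tendsto_nhds]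
  intro ε hε
  obtain ⟨N₀, hN⟩ := H (ε / (4 * Real.pi)) (by positivity)
  rw [← Nat.cofinite_eq_atTop, Filter.eventually_cofinite]
  set F : ℕ → ℕ × ℕ × ℕ := fun i => (i.unpair.1, i.unpair.2.unpair.1, i.unpair.2.unpair.2) with hF
  have hinj : Function.Injective F := by
    intro a b hab
    simp only [hF, Prod.mk.injEq] at hab
    rw [← Nat.pair_unpair a, ← Nat.pair_unpair b, hab.1]
    congr 1
    rw [← Nat.pair_unpair a.unpair.2, ← Nat.pair_unpair b.unpair.2, hab.2.1, hab.2.2]
  have hfin : (F ⁻¹' (Set.Iio N₀ ×ˢ Set.Iic N₀ ×ˢ Set.Iic (M N₀))).Finite :=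
    Set.Finite.preimage hinj.injOn ((Set.finite_Iio _).prod ((Set.finite_Iic _).prod
      (Set.finite_Iic _)))
  refine hfin.subset fun i hi => ?_
  by_contra hc
  apply hi
  show dist _ _ < ε
  have hnear : Near (ε / (4 * Real.pi)) (((seq τ i : ℤ) : ℝ) * ζ) := by
    rw [seq, Int.cast_natCast]
    by_cases h1 : N₀ ≤ i.unpair.1
    · exact hN _ h1 _ _
    · have hz : u τ i.unpair.1 i.unpair.2.unpair.1 i.unpair.2.unpair.2 = 0 := by
        by_contra hne
        apply hc
        rcases eq_or_ne i.unpair.2.unpair.1 0 with ht | ht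
        · have hy : i.unpair.2.unpair.2 = 0 := by
            by_contra hy
            apply hne
            rw [ht]
            exact u_zero' τ _ hy
          refine ⟨?_, ?_, ?_⟩
          · show i.unpair.1 < N₀
            omega
          · show i.unpair.2.unpair.1 ≤ N₀
            omega
          · show i.unpair.2.unpair.2 ≤ M N₀
            omega
        · by_cases hal : i.unpair.2.unpair.1 < i.unpair.1 ∧
              i.unpair.2.unpair.2 < m i.unpair.2.unpair.1 ∧
              (ok τ (nd i.unpair.2.unpair.1) = true →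
                i.unpair.2.unpair.2 * m (pa i.unpair.2.unpair.1) < m i.unpair.2.unpair.1)
          · have h2 := m_le_M (l := i.unpair.2.unpair.1) (n := N₀) (by omega)
            refine ⟨?_, ?_, ?_⟩
            · show i.unpair.1 < N₀
              omega
            · show i.unpair.2.unpair.1 ≤ N₀
              omega
            · show i.unpair.2.unpair.2 ≤ M N₀
              omega
          · exact (hne (u_neg τ ht hal)).elim
      rw [hz]
      refine ⟨0, ?_⟩
      simp only [Nat.cast_zero, zero_mul, Int.cast_zero, sub_zero, abs_zero]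
      positivity
  have h2 := norm_le_of_near hnear
  rw [dist_eq_norm, exp_zpow]
  refine lt_of_le_of_lt h2 ?_
  have : 2 * Real.pi * (ε / (4 * Real.pi)) = ε / 2 := by
    have := Real.pi_ne_zero
    field_simp
    norm_num
  rw [this]
  linarith

theorem conv_of_tendsto {τ : List ℕ → Bool} {ζ : ℝ}
    (H : Tendsto (fun i => Complex.exp (Complex.I * (2 * Real.pi * ζ : ℝ)) ^ seq τ i) atTop (𝓝 1)) :
    Conv τ ζ := by
  intro ε hε
  rw [Metric.tendsto_atTop] at H
  obtain ⟨i₀, hi⟩ := H ε hε
  refine ⟨i₀, fun N hN t y => ?_⟩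
  have h1 := hi (Nat.pair N (Nat.pair t y)) (le_trans hN (Nat.left_le_pair _ _))
  rw [dist_eq_norm, exp_zpow] at h1
  have h2 := near_of_norm h1.le
  simpa only [seq, Nat.unpair_pair, Int.cast_natCast] using h2

lemma exists_arg {z : ℂ} (hz : ‖z‖ = 1) :
    ∃ ζ : ℝ, z = Complex.exp (Complex.I * (2 * Real.pi * ζ : ℝ)) := by
  refine ⟨z.arg / (2 * Real.pi), ?_⟩
  have h1 : 2 * Real.pi * (z.arg / (2 * Real.pi)) = z.arg := by
    have := Real.pi_ne_zero
    field_simp
  have h2 := Complex.norm_mul_exp_arg_mul_I z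
  rw [hz, Complex.ofReal_one, one_mul] at h2
  rw [h1, mul_comm]
  exact h2.symm

lemma irrational_iff (ζ : ℝ) : Irrational ζ ↔
    ∀ q : ℕ, 0 < q → Complex.exp (Complex.I * (2 * Real.pi * ζ : ℝ)) ^ q ≠ 1 := by
  have key : ∀ q : ℕ, Complex.exp (Complex.I * (2 * Real.pi * ζ : ℝ)) ^ q = 1 ↔
      ∃ a : ℤ, (q : ℝ) * ζ = a := by
    intro q
    rw [← Complex.exp_nat_mul, Complex.exp_eq_one_iff]
    refine exists_congr fun a => ?_
    have hpi : (2 * Real.pi * Complex.I : ℂ) ≠ 0 := by
      simp [Real.pi_ne_zero, Complex.I_ne_zero]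
    rw [show (q : ℂ) * (Complex.I * ((2 * Real.pi * ζ : ℝ) : ℂ)) =
      ((q : ℝ) * ζ : ℝ) * (2 * Real.pi * Complex.I) by push_cast; ring]
    rw [mul_left_inj' hpi]
    exact ⟨fun h => by exact_mod_cast h, fun h => by exact_mod_cast congrArg (Complex.ofReal) h⟩
  constructor
  · intro h q hq hz
    obtain ⟨a, ha⟩ := (key q).1 hz
    apply h
    refine ⟨(a : ℚ) / q, ?_⟩
    have : (q : ℝ) ≠ 0 := by exact_mod_cast hq.ne'
    push_cast
    rw [← ha]
    field_simp
  · rintro h ⟨r, hr⟩
    refine h r.den r.den_pos ((key _).2 ⟨r.num, ?_⟩)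
    rw [← hr]
    exact_mod_cast Rat.den_mul_eq_num r

/-- The reduction. -/
theorem mem_IF_iff (τ : List ℕ → Bool) : τ ∈ IF ↔ seq τ ∈ S := by
  constructor
  · rintro ⟨x, hx⟩
    refine ⟨Complex.exp (Complex.I * (2 * Real.pi * zt x : ℝ)), ?_, ?_, ?_⟩
    · rw [mul_comm]; exact Complex.norm_exp_ofReal_mul_I _
    · exact (irrational_iff _).1 (irrational_zt x)
    · exact tendsto_of_conv (conv_of_branch hx)
  · rintro ⟨z, h1, h2, h3⟩
    obtain ⟨ζ, rfl⟩ := exists_arg h1
    exact branch_of_conv ((irrational_iff ζ).2 h2) (conv_of_tendsto h3)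

lemma continuous_ok (s : List ℕ) : Continuous fun τ : List ℕ → Bool => ok τ s := by
  induction s with
  | nil => exact continuous_apply _
  | cons i s ih =>
    have h1 : Continuous fun τ : List ℕ → Bool => (τ (i :: s), ok τ s) :=
      (continuous_apply _).prodMk ih
    exact (continuous_of_discreteTopology (f := fun p : Bool × Bool => p.1 && p.2)).comp h1

theorem continuous_seq : Continuous seq := by
  refine continuous_pi fun i => ?_
  classical
  set N := i.unpair.1
  set t := i.unpair.2.unpair.1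
  set y := i.unpair.2.unpair.2
  have h : (fun τ => seq τ i) = (fun b : Bool => (((if t = 0 then (if y = 0 then M N else 0) else
      if t < N ∧ y < m t ∧ (b = true → y * m (pa t) < m t) then w N t y * Q N t else 0 : ℕ)) : ℤ)) ∘
      fun τ => ok τ (nd t) := by
    funext τ
    simp only [seq, u, Function.comp]
    rfl
  show Continuous fun τ => seq τ i
  rw [h]
  exact continuous_of_discreteTopology.comp (continuous_ok _)

lemma br_loc (n : ℕ) : IsLocallyConstant fun y : ℕ → ℕ => br y n := by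
  induction n with
  | zero => exact IsLocallyConstant.const _
  | succ n ih =>
    exact IsLocallyConstant.comp₂ ((IsLocallyConstant.iff_continuous _).2 (continuous_apply n)) ih
      (fun a s => a :: s)

/-- Every analytic set of Baire space is a continuous preimage of `S`. -/
theorem hard (A : Set (ℕ → ℕ)) (hA : AnalyticSet A) :
    ∃ f : (ℕ → ℕ) → (ℕ → ℤ), Continuous f ∧ f ⁻¹' S = A := by
  obtain ⟨c, hc⟩ := universal A hA
  set T : (ℕ → ℕ) → List ℕ → Bool := fun y s =>
    decide (c (Encodable.encode (br y s.length, s)) = 1) with hT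
  refine ⟨fun y => seq (T y), ?_, ?_⟩
  · refine continuous_seq.comp (continuous_pi fun s => ?_)
    exact (IsLocallyConstant.iff_continuous _).1 ((br_loc s.length).comp
      (fun l => decide (c (Encodable.encode (l, s)) = 1)))
  · ext y
    rw [Set.mem_preimage, ← mem_IF_iff, hc]
    show (∃ z : ℕ → ℕ, ∀ n, T y (br z n) = true) ↔ ∃ z : ℕ → ℕ, _
    simp only [hT, br_length, decide_eq_true_eq]

theorem not_borel : ¬ MeasurableSet[borel (ℕ → ℤ)] S := by
  intro h
  rw [← BorelSpace.measurable_eq (α := ℕ → ℤ)] at h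
  apply not_measurable_IF
  have h1 : IF = seq ⁻¹' S := by ext τ; exact mem_IF_iff τ
  rw [h1]
  exact continuous_seq.measurable h

end Pool.Agent.Q304.RG
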